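import Pool.Agent.H80.JE.Targets

/-!
# Board je_modules (MP_38f78d_pr), module `LLN`: the law of large numbers (Chebyshev)
-/

set_option autoImplicit false

namespace Pool.Agent.H29.JE

open Finset Filter Topology Pool.Agent.H80.JD Pool.Agent.H80.JE

theorem sum_cons' {V : Type} [Fintype V] {n : ℕ} (F : (Fin (n + 1) → V) → ℝ) :
    ∑ c, F c = ∑ v : V, ∑ w : Fin n → V, F (Fin.cons v w) := by
  rw [← Equiv.sum_comp (Fin.consEquiv (fun _ => V)) F, Fintype.sum_prod_type]
  rfl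

/-- first and second moment of the sum of independent centred variables -/
theorem moments {V : Type} [Fintype V] (g : V → ℝ) (hg : ∑ v, g v = 0) (n : ℕ) :
    (∑ c : Fin n → V, ∑ i, g (c i) = 0) ∧
    Fintype.card V * ∑ c : Fin n → V, (∑ i, g (c i)) ^ 2 =
      n * (Fintype.card V : ℝ) ^ n * ∑ v, g v ^ 2 := by
  induction n with
  | zero => simp
  | succ n ih =>
    obtain ⟨ih1, ih2⟩ := ih
    have hs : ∀ (v : V) (w : Fin n → V), ∑ i, g ((Fin.cons v w : Fin (n + 1) → V) i) =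
        g v + ∑ i, g (w i) := by
      intro v w
      rw [Fin.sum_univ_succ]
      simp only [Fin.cons_zero, Fin.cons_succ]
    have hcard : ∑ _w : Fin n → V, (1 : ℝ) = (Fintype.card V : ℝ) ^ n := by simp
    constructor
    · rw [sum_cons']
      simp only [hs, sum_add_distrib, ih1, add_zero, sum_const]
      rw [← Finset.smul_sum, hg, smul_zero]
    · rw [sum_cons']
      have h1 : ∀ v : V, ∑ w : Fin n → V, (∑ i, g ((Fin.cons v w : Fin (n + 1) → V) i)) ^ 2 =
          g v ^ 2 * (Fintype.card V : ℝ) ^ n + ∑ w : Fin n → V, (∑ i, g (w i)) ^ 2 := by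
        intro v
        have h2 : ∀ w : Fin n → V, (∑ i, g ((Fin.cons v w : Fin (n + 1) → V) i)) ^ 2 =
            g v ^ 2 * 1 + 2 * g v * (∑ i, g (w i)) + (∑ i, g (w i)) ^ 2 := by
          intro w
          rw [hs]
          ring
        rw [sum_congr rfl (fun w _ => h2 w), sum_add_distrib, sum_add_distrib, ← mul_sum,
          ← mul_sum, ih1, hcard]
        ring
      rw [sum_congr rfl (fun v _ => h1 v), sum_add_distrib, ← sum_mul, sum_const, card_univ,
        nsmul_eq_mul, mul_add, ih2]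
      push_cast
      ring

theorem lln : T_LLN := by
  intro V _ _ f σ ε n hn hε hf
  classical
  set N : ℝ := (Fintype.card V : ℝ) with hN
  have hNpos : 0 < N := by
    rw [hN]
    exact_mod_cast Fintype.card_pos
  set μ : ℝ := (∑ v, f v) / N with hμ
  have hg : ∑ v, (f v - μ) = 0 := by
    rw [sum_sub_distrib, sum_const, card_univ, nsmul_eq_mul, ← hN, hμ]
    field_simp
    ring
  have hg2 : ∑ v, (f v - μ) ^ 2 ≤ σ * N := by
    have h1 : ∀ v, (f v - μ) ^ 2 = f v ^ 2 - 2 * μ * (f v - μ) - μ ^ 2 := by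
      intro v
      ring
    have h2 : ∑ v, (f v - μ) ^ 2 = ∑ v, f v ^ 2 - N * μ ^ 2 := by
      rw [sum_congr rfl (fun v _ => h1 v), sum_sub_distrib, sum_sub_distrib, ← mul_sum, hg,
        sum_const, card_univ, nsmul_eq_mul, ← hN]
      ring
    have h3 : 0 ≤ N * μ ^ 2 := by positivity
    rw [h2]
    linarith
  obtain ⟨-, hm⟩ := moments (fun v => f v - μ) hg n
  set B : Finset (Fin n → V) := univ.filter
    (fun c => ε * n ≤ |∑ i, f (c i) - n * μ|) with hB
  have hcardB : (Nat.card {c : Fin n → V // ε * n ≤ |∑ i, f (c i) - n * μ|} : ℝ) = B.card := by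
    rw [Nat.card_eq_fintype_card, Fintype.card_subtype]
  have hn0 : (0 : ℝ) < n := by exact_mod_cast hn
  have hch : (B.card : ℝ) * (ε * n) ^ 2 ≤ ∑ c : Fin n → V, (∑ i, (f (c i) - μ)) ^ 2 := by
    calc (B.card : ℝ) * (ε * n) ^ 2 = ∑ _c ∈ B, (ε * n) ^ 2 := by
          rw [sum_const, nsmul_eq_mul]
      _ ≤ ∑ c ∈ B, (∑ i, (f (c i) - μ)) ^ 2 := by
          refine sum_le_sum fun c hc => ?_
          have h1 : ε * n ≤ |∑ i, f (c i) - n * μ| := (mem_filter.1 hc).2
          have h2 : ∑ i, (f (c i) - μ) = ∑ i, f (c i) - n * μ := by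
            rw [sum_sub_distrib, sum_const, card_univ, Fintype.card_fin, nsmul_eq_mul]
          rw [h2, ← sq_abs (∑ i, f (c i) - n * μ)]
          exact pow_le_pow_left₀ (by positivity) h1 2
      _ ≤ ∑ c : Fin n → V, (∑ i, (f (c i) - μ)) ^ 2 :=
          sum_le_sum_of_subset_of_nonneg (subset_univ _) fun _ _ _ => sq_nonneg _
  change (Nat.card {c : Fin n → V // ε * n ≤ |∑ i, f (c i) - n * μ|} : ℝ) ≤ _
  rw [hcardB]
  have hP : (0 : ℝ) < N ^ n := by positivity
  have h5 : N * ((B.card : ℝ) * (ε * n) ^ 2) ≤ N * (σ * n * N ^ n) := by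
    calc N * ((B.card : ℝ) * (ε * n) ^ 2)
        ≤ N * ∑ c : Fin n → V, (∑ i, (f (c i) - μ)) ^ 2 :=
          mul_le_mul_of_nonneg_left hch hNpos.le
      _ = n * N ^ n * ∑ v, (f v - μ) ^ 2 := hm
      _ ≤ n * N ^ n * (σ * N) := mul_le_mul_of_nonneg_left hg2 (by positivity)
      _ = N * (σ * n * N ^ n) := by ring
  have h6 : (B.card : ℝ) * (ε * n) ^ 2 ≤ σ * n * N ^ n := le_of_mul_le_mul_left h5 hNpos
  have h7 : (B.card : ℝ) * (ε ^ 2 * n) ≤ σ * N ^ n := by
    have h8 : ((B.card : ℝ) * (ε ^ 2 * n)) * n ≤ (σ * N ^ n) * n := by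
      calc ((B.card : ℝ) * (ε ^ 2 * n)) * n = (B.card : ℝ) * (ε * n) ^ 2 := by ring
        _ ≤ σ * n * N ^ n := h6
        _ = (σ * N ^ n) * n := by ring
    exact le_of_mul_le_mul_right h8 hn0
  rw [div_mul_eq_mul_div, le_div_iff₀ (by positivity)]
  exact h7

end Pool.Agent.H29.JE
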